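/-
Project NF: the part SUM.
-/
import Pool.Agent.L7h20.NF.Stm

set_option autoImplicit false

open Set Filter Topology Metric Function
open scoped Manifold ContDiff

noncomputable section

namespace Pool.Agent.L7h38.NF

open Pool.Agent.Y522 Pool.Agent.L7h20.NF

theorem sm_zero {m : ℕ} {X : Type} [TopologicalSpace X] [ChartedSpace (E (m + 1)) X] :
    Sm (fun _ : X => (0 : E (m + 1))) := contMDiff_const

theorem sm_add {m : ℕ} {X : Type} [TopologicalSpace X] [ChartedSpace (E (m + 1)) X]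
    {V W : X → E (m + 1)} (hV : Sm V) (hW : Sm W) : Sm (fun y => V y + W y) :=
  ContMDiff.add hV hW

theorem sm_smul {m : ℕ} {X : Type} [TopologicalSpace X] [ChartedSpace (E (m + 1)) X]
    {V : X → E (m + 1)} (hV : Sm V) (C : ℝ) : Sm (fun y => C • V y) :=
  (contMDiff_const (c := C) : ContMDiff (𝓡 (m + 1)) 𝓘(ℝ, ℝ) ∞ fun _ : X => C).smul hV

theorem sm_fsmul {m : ℕ} {X : Type} [TopologicalSpace X] [ChartedSpace (E (m + 1)) X]
    {σ : X → ℝ} (hσ : ContMDiff (𝓡 (m + 1)) 𝓘(ℝ, ℝ) ∞ σ) (n : E (m + 1)) :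
    Sm (fun y => σ y • n) :=
  hσ.smul (contMDiff_const (c := n))

theorem s_SUM (hC : S_CONE) : S_SUM := by
  intro m X _ _ _ _ F hF hc hG
  obtain ⟨hadd, hpos, -, -, hopen, hpn, hzero, -, -⟩ := hC m X F hF
  have hG' : ∀ x : X, ∃ V : X → E (m + 1), ¬ LD (m + 1) F x → (Sm V ∧ HasCompactSupport V ∧
      (∀ y, ¬ LD (m + 1) F y → NN F V y) ∧ Pos F V x) := by
    intro x
    by_cases hx : LD (m + 1) F x
    · exact ⟨fun _ => 0, fun h => absurd hx h⟩
    · obtain ⟨V, h1, h2, h3, h4⟩ := hG x hx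
      exact ⟨V, fun _ => ⟨h1, h2, h3, h4⟩⟩
  choose W hW using hG'
  obtain ⟨t, ht⟩ := hc.elim_nhds_subcover' (fun x _ => {y | ¬ LD (m + 1) F x ∧ Pos F (W x) y}) (by
    intro x hx
    have h := (hopen (W x) (hW x hx).1).mem_nhds (hW x hx).2.2.2
    exact mem_of_superset h fun y hy => ⟨hx, hy⟩)
  have key : ∀ t : Finset (↥{x : X | ¬ LD (m + 1) F x}), ∃ V : X → E (m + 1), Sm V ∧
      HasCompactSupport V ∧ (∀ y, ¬ LD (m + 1) F y → NN F V y) ∧
      ∀ i ∈ t, ∀ y, ¬ LD (m + 1) F y → Pos F (W i) y → Pos F V y := by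
    classical
    intro t
    induction t using Finset.induction_on with
    | empty =>
      exact ⟨fun _ => 0, sm_zero, HasCompactSupport.zero, fun y _ => hzero y, by simp⟩
    | insert a t _ ih =>
      obtain ⟨V, hV1, hV2, hV3, hV4⟩ := ih
      obtain ⟨hW1, hW2, hW3, -⟩ := hW a a.2
      refine ⟨fun y => V y + W a y, sm_add hV1 hW1, hV2.add hW2, ?_, ?_⟩
      · intro y hy
        exact hadd V (W a) y hV1 hW1 (hV3 y hy) (hW3 y hy)
      · intro i hi y hy hp
        rcases Finset.mem_insert.1 hi with rfl | hi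
        · have h := hpos (W i) V y hW1 hV1 hp (hV3 y hy)
          have e : (fun y => V y + W i y) = fun y => W i y + V y := by
            funext z; exact add_comm _ _
          rw [e]
          exact h
        · exact hpos V (W a) y hV1 hW1 (hV4 i hi y hy hp) (hW3 y hy)
  obtain ⟨V, hV1, hV2, -, hV4⟩ := key t
  refine ⟨V, hV1, hV2, ?_⟩
  intro x hx
  have h := ht hx
  simp only [mem_iUnion] at h
  obtain ⟨i, hi, h2⟩ := h
  exact hV4 i hi x hx h2.2

end Pool.Agent.L7h38.NF
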