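/-
Project NF: the part PROP (propagation in a box).
-/
import Pool.Agent.L7h38.NF.Sum

set_option autoImplicit false

open Set Filter Topology Metric Function
open scoped Manifold ContDiff

noncomputable section

namespace Pool.Agent.L7h38.NF

open Pool.Agent.Y522 Pool.Agent.L7h20.NF

section lemmas

variable {m : ℕ} {X : Type} [TopologicalSpace X] [ChartedSpace (E (m + 1)) X]

theorem cda {V : X → E (m + 1)} (hV : Sm V) {A : E (m + 1) → X} {z : E (m + 1)}
    (hA : LD (m + 1) A z) : ContDiffAt ℝ ∞ (fun w => V (A w)) z :=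
  contMDiffAt_iff_contDiffAt.1 (ContMDiffAt.comp z (hV (A z)) hA.contMDiffAt)

theorem cda' {σ : X → ℝ} (hσ : ContMDiff (𝓡 (m + 1)) 𝓘(ℝ, ℝ) ∞ σ) {A : E (m + 1) → X}
    {z : E (m + 1)} (hA : LD (m + 1) A z) : ContDiffAt ℝ ∞ (fun w => σ (A w)) z :=
  contMDiffAt_iff_contDiffAt.1 (ContMDiffAt.comp z (hσ (A z)) hA.contMDiffAt)

theorem dF_eq {V : X → E (m + 1)} (hV : Sm V) {A : E (m + 1) → X}
    {L : E (m + 1) ≃L[ℝ] E (m + 1)} {z : E (m + 1)} (hA : LD (m + 1) A z) :
    dF V A L z = (L : E (m + 1) →L[ℝ] E (m + 1)).comp (fderiv ℝ (fun w => V (A w)) z) := by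
  have h1 : HasFDerivAt (fun w => V (A w)) (fderiv ℝ (fun w => V (A w)) z) z :=
    ((cda hV hA).differentiableAt (by simp)).hasFDerivAt
  have h2 := (L : E (m + 1) →L[ℝ] E (m + 1)).hasFDerivAt.comp z h1
  exact h2.fderiv

theorem dF_lin {V W : X → E (m + 1)} (hV : Sm V) (hW : Sm W) {A : E (m + 1) → X}
    {L : E (m + 1) ≃L[ℝ] E (m + 1)} {z : E (m + 1)} (hA : LD (m + 1) A z) (C : ℝ) :
    dF (fun y => C • V y + W y) A L z = C • dF V A L z + dF W A L z := by
  rw [dF_eq (sm_add (sm_smul hV C) hW) hA, dF_eq hV hA, dF_eq hW hA]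
  have h1 : HasFDerivAt (fun w => V (A w)) (fderiv ℝ (fun w => V (A w)) z) z :=
    ((cda hV hA).differentiableAt (by simp)).hasFDerivAt
  have h2 : HasFDerivAt (fun w => W (A w)) (fderiv ℝ (fun w => W (A w)) z) z :=
    ((cda hW hA).differentiableAt (by simp)).hasFDerivAt
  have h3 := ((h1.const_smul C).add h2).fderiv
  have h4 : fderiv ℝ (fun w => C • V (A w) + W (A w)) z =
      C • fderiv ℝ (fun w => V (A w)) z + fderiv ℝ (fun w => W (A w)) z := h3
  rw [h4]
  ext v : 1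
  simp

theorem tau_lin {F V W : X → E (m + 1)} (hV : Sm V) (hW : Sm W) {A : E (m + 1) → X}
    {L : E (m + 1) ≃L[ℝ] E (m + 1)} {z : E (m + 1)} (hA : LD (m + 1) A z) (C : ℝ) :
    tau F (fun y => C • V y + W y) A L z = C * tau F V A L z + tau F W A L z := by
  unfold tau dd
  rw [dF_lin hV hW hA C, map_add, map_smul, smul_eq_mul]

theorem NN_congr {F V W : X → E (m + 1)} {x : X} (h : V =ᶠ[𝓝 x] W) (hV : NN F V x) :
    NN F W x := by
  obtain ⟨A, L, z, hz, hC, ht⟩ := hV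
  refine ⟨A, L, z, hz, hC, ?_⟩
  have h1 : (fun w => V (A w)) =ᶠ[𝓝 z] fun w => W (A w) := by
    have h2 : Tendsto A (𝓝 z) (𝓝 x) := by
      have := hC.ld.continuousAt
      rwa [ContinuousAt, hz] at this
    exact h2.eventually h
  have h3 : dF V A L z = dF W A L z := by
    unfold dF
    refine Filter.EventuallyEq.fderiv_eq ?_
    filter_upwards [h1] with w hw
    rw [hw]
  unfold tau at ht ⊢
  rwa [h3] at ht

end lemmas

theorem tl_e0 {m : ℕ} : tl (e0 : E (m + 1)) = 0 := by simp [e0]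

theorem e0_zero {m : ℕ} : (e0 : E (m + 1)) 0 = 1 := by simp [e0]

theorem te0_mem {m : ℕ} {t : ℝ} (ht : |t| ≤ 1) : (t • e0 : E (m + 1)) ∈ box m 1 1 := by
  refine ⟨?_, ?_⟩
  · rw [map_smul, tl_e0, smul_zero, norm_zero]
    exact zero_le_one
  · have : (t • e0 : E (m + 1)) 0 = t := by simp [e0]
    rw [this]
    exact ht

theorem box_mono {m : ℕ} {ρ : ℝ} (h : ρ ≤ 1) : box m ρ ρ ⊆ box m 1 1 :=
  fun _ hz => ⟨hz.1.trans h, hz.2.trans h⟩

theorem box_nhds {m : ℕ} {ρ : ℝ} (h : ρ < 1) {z : E (m + 1)} (hz : z ∈ box m ρ ρ) :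
    box m 1 1 ∈ 𝓝 z := by
  have c1 : Continuous (fun w : E (m + 1) => ‖tl w‖) := (tl : E (m + 1) →L[ℝ] E m).continuous.norm
  have c2 : Continuous (fun w : E (m + 1) => |w 0|) := continuous_abs.comp continuous_head
  have ho : IsOpen {w : E (m + 1) | ‖tl w‖ < 1 ∧ |w 0| < 1} :=
    (isOpen_lt c1 continuous_const).inter (isOpen_lt c2 continuous_const)
  refine mem_of_superset (ho.mem_nhds ⟨hz.1.trans_lt h, hz.2.trans_lt h⟩) ?_
  intro w hw
  exact ⟨hw.1.le, hw.2.le⟩

theorem s_PROP (h1 : S_BUMP) (h2 : S_ONED) (h3 : S_BXJ) (h4 : S_CONE) : S_PROP := by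
  intro m X _ _ _ _ F P A L b S N V t hF hB hS hA0 hV hNN hN hPos ht0 ht1 htN
  obtain ⟨hadd, hposadd, hnns, -, hopen, hpn, -, hco, -⟩ := h4 m X F hF
  obtain ⟨hCo, -, -, -, hsig⟩ := h3 m X F P A L b hF.smooth hB
  have hld := hB.ld
  have hinj := hB.inj
  have hcA : ContinuousOn A (box m 1 1) := fun z hz => (hld z hz).continuousAt.continuousWithinAt
  -- the size of the neighbourhood
  have hn1 : A ⁻¹' N ∈ 𝓝 (t • e0 : E (m + 1)) :=
    (hld _ (te0_mem ht1.le)).continuousAt.preimage_mem_nhds (hN.mem_nhds htN)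
  obtain ⟨ε, hε, hball⟩ := Metric.mem_nhds_iff.1 hn1
  obtain ⟨s, hs0, hsε, hs1⟩ : ∃ s : ℝ, 0 < s ∧ s ≤ ε / 2 ∧ |t| + s < 1 := by
    refine ⟨min (ε / 2) ((1 - |t|) / 2), lt_min (by linarith) (by linarith), min_le_left _ _, ?_⟩
    have := min_le_right (ε / 2) ((1 - |t|) / 2)
    linarith
  have hs1' : s < 1 := by linarith [abs_nonneg t]
  obtain ⟨g, ρ0, hg, hρ00, hρ01, hg0, hg1, hg2⟩ := h2 t s ht0 ht1 hs0
  let χ : ContDiffBump (0 : E m) := ⟨s / 2, s, by linarith, by linarith⟩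
  obtain ⟨θ, hθ⟩ : ∃ θ : E (m + 1) → ℝ, θ = fun z => g (z 0) * χ (tl z) := ⟨_, rfl⟩
  have hhead : ContDiff ℝ ∞ (fun z : E (m + 1) => z 0) := by fun_prop
  have hθs : ContDiff ℝ ∞ θ := by
    rw [hθ]
    exact (hg.comp hhead).mul (χ.contDiff.comp (tl : E (m + 1) →L[ℝ] E m).contDiff)
  obtain ⟨ρ, hρ⟩ : ∃ ρ : ℝ, ρ = max ρ0 s := ⟨_, rfl⟩
  have hρ1 : ρ < 1 := by rw [hρ]; exact max_lt hρ01 hs1'
  have hρ0 : ρ0 ≤ ρ := by rw [hρ]; exact le_max_left _ _
  have hρs : s ≤ ρ := by rw [hρ]; exact le_max_right _ _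
  have hχ0 : ∀ y : E m, s ≤ ‖y‖ → χ y = 0 := by
    intro y hy
    apply χ.zero_of_le_dist
    rw [dist_zero_right]
    exact hy
  have hθ0 : ∀ z, z ∉ box m ρ ρ → θ z = 0 := by
    intro z hz
    rw [hθ]
    by_cases hz1 : ‖tl z‖ ≤ ρ
    · have hz2 : ¬ |z 0| ≤ ρ := fun h => hz ⟨hz1, h⟩
      have : g (z 0) = 0 := hg2 _ (hρ0.trans (not_le.1 hz2).le)
      simp only [this, zero_mul]
    · have : χ (tl z) = 0 := hχ0 _ (hρs.trans (not_le.1 hz1).le)
      simp only [this, mul_zero]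
  obtain ⟨σ, hσ, hσc, hσA, hσ0⟩ := h1 m X A hinj hld θ hθs ρ hρ1 hθ0
  obtain ⟨W, hWdef⟩ : ∃ W : X → E (m + 1), W = fun y => σ y • L.symm e0 := ⟨_, rfl⟩
  have hW : Sm W := by rw [hWdef]; exact sm_fsmul hσ _
  -- the value of tau in the box
  have htau : ∀ z ∈ box m ρ ρ, tau F W A L z = deriv g (z 0) * χ (tl z) := by
    intro z hz
    have e1 := hsig σ hσ z (box_mono hρ1.le hz)
    rw [hWdef, e1]
    have e2 : (fun w => σ (A w)) =ᶠ[𝓝 z] θ := by
      filter_upwards [box_nhds hρ1 hz] with w hw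
      exact hσA w hw
    rw [e2.fderiv_eq]
    have e3 : HasFDerivAt θ (fderiv ℝ θ z) z :=
      (hθs.contDiffAt.differentiableAt (by simp)).hasFDerivAt
    have e4 : HasDerivAt (fun u : ℝ => z + u • (e0 : E (m + 1))) e0 0 := by
      have := ((hasDerivAt_id (0 : ℝ)).smul_const (e0 : E (m + 1))).const_add z
      simpa using this
    have e5 : HasDerivAt (fun u : ℝ => θ (z + u • (e0 : E (m + 1)))) (fderiv ℝ θ z e0) 0 := by
      have e3' : HasFDerivAt θ (fderiv ℝ θ z) (z + (0 : ℝ) • (e0 : E (m + 1))) := by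
        rw [zero_smul, add_zero]
        exact e3
      exact e3'.comp_hasDerivAt (0 : ℝ) e4
    have e6 : HasDerivAt (fun u : ℝ => θ (z + u • (e0 : E (m + 1))))
        (deriv g (z 0) * χ (tl z)) 0 := by
      have e7 : (fun u : ℝ => θ (z + u • (e0 : E (m + 1)))) =
          fun u : ℝ => g (z 0 + u) * χ (tl z) := by
        funext u
        rw [hθ]
        have e8 : (z + u • (e0 : E (m + 1))) 0 = z 0 + u := by simp [e0]
        have e9 : tl (z + u • (e0 : E (m + 1))) = tl z := by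
          rw [map_add, map_smul, tl_e0, smul_zero, add_zero]
        simp only [e8, e9]
      rw [e7]
      have e10 : HasDerivAt g (deriv g (z 0)) (z 0) :=
        (hg.contDiffAt.differentiableAt (by simp)).hasDerivAt
      have e11 : HasDerivAt (fun u : ℝ => g (z 0 + u)) (deriv g (z 0)) 0 := by
        have e12 : HasDerivAt g (deriv g (z 0)) (z 0 + 0) := by rwa [add_zero]
        exact e12.comp_const_add (z 0) 0
      exact e11.mul_const _
    exact e5.unique e6
  -- outside of the box the field vanishes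
  have hKc : IsCompact (A '' box m ρ ρ) :=
    (isCompact_box ρ ρ).image_of_continuousOn (hcA.mono (box_mono hρ1.le))
  have hout : ∀ x, x ∉ A '' box m ρ ρ → ∀ᶠ y in 𝓝 x, W y = 0 := by
    intro x hx
    filter_upwards [hKc.isClosed.isOpen_compl.mem_nhds hx] with y hy
    have : σ y = 0 := by
      by_cases hyA : y ∈ A '' box m 1 1
      · obtain ⟨z, hz, rfl⟩ := hyA
        rw [hσA z hz]
        exact hθ0 z fun h => hy ⟨z, h, rfl⟩
      · exact hσ0 y hyA
    rw [hWdef]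
    simp only [this, zero_smul]
  -- the compact set where the derivative may be negative
  obtain ⟨Q, hQ⟩ : ∃ Q : Set (E (m + 1)), Q = {z | ‖tl z‖ ≤ s ∧ |z 0 - t| ≤ s} := ⟨_, rfl⟩
  have hQbox : Q ⊆ box m 1 1 := by
    intro z hz
    rw [hQ] at hz
    refine ⟨hz.1.trans hs1'.le, ?_⟩
    have h5 : |z 0| ≤ |z 0 - t| + |t| := by
      have := abs_add_le (z 0 - t) t
      simpa using this
    linarith [hz.2]
  have hQc : IsCompact Q := by
    refine (isCompact_box (m := m) 1 1).of_isClosed_subset ?_ hQbox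
    have c1 : Continuous (fun w : E (m + 1) => ‖tl w‖) :=
      (tl : E (m + 1) →L[ℝ] E m).continuous.norm
    have c3 : Continuous (fun u : ℝ => |u - t|) := by fun_prop
    have c2 : Continuous (fun w : E (m + 1) => |w 0 - t|) := c3.comp continuous_head
    rw [hQ]
    exact (isClosed_le c1 continuous_const).inter (isClosed_le c2 continuous_const)
  have hQN : ∀ z ∈ Q, A z ∈ N := by
    intro z hz
    apply hball
    rw [Metric.mem_ball, dist_eq_norm]
    rw [hQ] at hz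
    have h5 := norm_sq_split (z - t • (e0 : E (m + 1)))
    have h6 : (z - t • (e0 : E (m + 1))) 0 = z 0 - t := by simp [e0]
    have h7 : tl (z - t • (e0 : E (m + 1))) = tl z := by
      rw [map_sub, map_smul, tl_e0, smul_zero, sub_zero]
    rw [h6, h7] at h5
    have h8 : (z 0 - t) ^ 2 ≤ s ^ 2 := sq_le_sq' (by linarith [(abs_le.1 hz.2).1]) (abs_le.1 hz.2).2
    have h9 : ‖tl z‖ ^ 2 ≤ s ^ 2 := pow_le_pow_left₀ (norm_nonneg _) hz.1 2
    have h10 : ‖z - t • (e0 : E (m + 1))‖ ^ 2 < ε ^ 2 := by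
      rw [h5]
      nlinarith
    exact lt_of_pow_lt_pow_left₀ 2 hε.le h10
  -- the constant
  obtain ⟨C, hC0, hC⟩ : ∃ C : ℝ, 0 ≤ C ∧ ∀ x ∈ A '' Q ∩ S, Pos F (fun y => C • V y + W y) x := by
    have hK0 : IsCompact (A '' Q ∩ S) :=
      (hQc.image_of_continuousOn (hcA.mono hQbox)).inter_right hS
    have hcov : A '' Q ∩ S ⊆ ⋃ n : ℕ, {x | Pos F (fun y => (n : ℝ) • V y + W y) x} := by
      rintro x ⟨⟨z, hz, rfl⟩, hxS⟩
      have hp := hPos _ hxS (hQN z hz)
      have hcz := hCo z (hQbox hz)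
      have hp' := ((hco A L z V hV hcz).2).1 hp
      obtain ⟨n, hn⟩ := exists_nat_gt (-(tau F W A L z) / tau F V A L z)
      rw [mem_iUnion]
      refine ⟨n, ?_⟩
      have h5 : 0 < tau F (fun y => (n : ℝ) • V y + W y) A L z := by
        rw [tau_lin hV hW (hld z (hQbox hz))]
        rw [div_lt_iff₀ hp'] at hn
        linarith
      exact ((hco A L z _ (sm_add (sm_smul hV _) hW) hcz).2).2 h5
    obtain ⟨T, hT⟩ := hK0.elim_finite_subcover _
      (fun n : ℕ => hopen _ (sm_add (sm_smul hV (n : ℝ)) hW)) hcov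
    refine ⟨((T.sup id : ℕ) : ℝ), Nat.cast_nonneg _, ?_⟩
    intro x hx
    have h5 := hT hx
    simp only [mem_iUnion] at h5
    obtain ⟨i, hi, hp⟩ := h5
    have hp : Pos F (fun y => (i : ℝ) • V y + W y) x := hp
    have hle : (i : ℝ) ≤ ((T.sup id : ℕ) : ℝ) := by
      exact_mod_cast Finset.le_sup (f := id) hi
    have h6 : NN F (fun y => (((T.sup id : ℕ) : ℝ) - i) • V y) x :=
      hnns V x _ hV (by linarith) (hNN x hx.2)
    have h7 := hposadd _ _ x (sm_add (sm_smul hV (i : ℝ)) hW)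
      (sm_smul hV (((T.sup id : ℕ) : ℝ) - i)) hp h6
    have e : (fun y => (((i : ℝ) • V y + W y) + (((T.sup id : ℕ) : ℝ) - i) • V y)) =
        fun y => ((T.sup id : ℕ) : ℝ) • V y + W y := by
      funext y
      module
    rw [e] at h7
    exact h7
  have hCV : ∀ x ∈ S, NN F (fun y => C • V y) x := fun x hx => hnns V x C hV hC0 (hNN x hx)
  refine ⟨C, σ, hC0, hσ, hσc, ?_, ?_⟩
  · intro x hx
    have e : (fun y => C • V y + σ y • L.symm e0) = fun y => C • V y + W y := by rw [hWdef]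
    rw [e]
    by_cases hxA : x ∈ A '' box m ρ ρ
    · obtain ⟨z, hz, rfl⟩ := hxA
      by_cases hzQ : z ∈ Q
      · exact hpn _ _ (hC _ ⟨⟨z, hzQ, rfl⟩, hx⟩)
      · refine hadd _ W _ (sm_smul hV C) hW (hCV _ hx) ?_
        refine ((hco A L z W hW (hCo z (box_mono hρ1.le hz))).1).2 ?_
        rw [htau z hz]
        by_cases hz1 : ‖tl z‖ ≤ s
        · have hz2 : ¬ |z 0 - t| ≤ s := by
            intro h
            apply hzQ
            rw [hQ]
            exact ⟨hz1, h⟩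
          exact mul_nonneg (hg1 _ (not_le.1 hz2).le) χ.nonneg
        · rw [hχ0 _ (not_le.1 hz1).le, mul_zero]
    · refine NN_congr ?_ (hCV x hx)
      filter_upwards [hout x hxA] with y hy
      rw [hy, add_zero]
  · have e : (fun y => C • V y + σ y • L.symm e0) = fun y => W y + C • V y := by
      rw [hWdef]
      funext y
      exact add_comm _ _
    rw [e]
    refine hposadd W _ _ hW (sm_smul hV C) ?_ (hCV _ hA0)
    have h0 : (0 : E (m + 1)) ∈ box m ρ ρ := by
      have hρpos : 0 ≤ ρ := hs0.le.trans hρs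
      refine ⟨by simpa using hρpos, by simpa using hρpos⟩
    refine ((hco A L 0 W hW (hCo 0 (box_mono hρ1.le h0))).2).2 ?_
    rw [htau 0 h0]
    have h5 : χ (tl (0 : E (m + 1))) = 1 := by
      rw [map_zero]
      apply χ.one_of_mem_closedBall
      exact mem_closedBall_self χ.rIn_pos.le
    rw [h5, mul_one]
    exact hg0

end Pool.Agent.L7h38.NF
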