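/-
Project NF: the part MAX (a leafy set contains no regular point).
-/
import Pool.Agent.L7h38.NF.Prop

set_option autoImplicit false

open Set Filter Topology Metric Function
open scoped Manifold ContDiff

noncomputable section

namespace Pool.Agent.L7h38.NF

open Pool.Agent.Y522 Pool.Agent.L7h20.NF

theorem eq_smul_e0 {m : ℕ} {z : E (m + 1)} (h : tl z = 0) : z = z 0 • e0 := by
  have h1 := cn_tl z
  rw [h, cn_eq] at h1
  have h2 : cn 0 (0 : E m) = (0 : E (m + 1)) := by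
    ext i
    refine Fin.cases ?_ (fun i => ?_) i <;> simp
  rw [h2, add_zero] at h1
  exact h1.symm

theorem e0_ne {m : ℕ} : (e0 : E (m + 1)) ≠ 0 := by
  intro h
  have := congrArg (fun v : E (m + 1) => v 0) h
  simp [e0] at this

theorem s_MAX (h1 : S_PROP) (h2 : S_BXJ) (h3 : S_CONE) : S_MAX := by
  intro m X _ _ _ _ F P K q₀ hF hK hq₀ hreg
  obtain ⟨hadd, hposadd, -, -, hopen, hpn, hzero, hco, hlast⟩ := h3 m X F hF
  obtain ⟨cc, hcc⟩ := hK.const
  have hKcl : IsClosed K := hK.cpt.isClosed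
  -- the direction
  obtain ⟨A₀, L₀, b₀, -, hB₀, -, -⟩ := hK.leaf q₀ hq₀ univ univ_mem
  obtain ⟨c₀, hc₀, hpar₀⟩ := hB₀.par
  obtain ⟨n, hn⟩ : ∃ n : E (m + 1), n = L₀.symm e0 := ⟨_, rfl⟩
  have hdir : ∀ (A : E (m + 1) → X) (L : E (m + 1) ≃L[ℝ] E (m + 1)) (b : E m),
      Bx F P A L b → ∃ a : ℝ, a ≠ 0 ∧ L.symm e0 = a • n := by
    intro A L b hB
    obtain ⟨c, hc, hpar⟩ := hB.par
    have e1 : P (L.symm e0) = 0 := by
      have := hpar (L.symm e0)
      rw [ContinuousLinearEquiv.apply_symm_apply, tl_e0] at this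
      rcases smul_eq_zero.1 this.symm with h | h
      · exact absurd h hc.ne'
      · exact h
    have e2 : tl (L₀ (L.symm e0)) = 0 := by
      rw [hpar₀, e1, smul_zero]
    have e3 := eq_smul_e0 e2
    refine ⟨(L₀ (L.symm e0)) 0, ?_, ?_⟩
    · intro h
      rw [h, zero_smul] at e3
      have e4 : L.symm e0 = 0 := by
        have := congrArg L₀.symm e3
        rwa [ContinuousLinearEquiv.symm_apply_apply, map_zero] at this
      have e5 := congrArg L e4
      rw [ContinuousLinearEquiv.apply_symm_apply, map_zero] at e5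
      exact e0_ne e5
    · have := congrArg L₀.symm e3
      rw [ContinuousLinearEquiv.symm_apply_apply, map_smul, ← hn] at this
      exact this
  obtain ⟨G, hG⟩ : ∃ G : Set X, G = {q | q ∈ K ∧ ∃ φ : X → ℝ,
      ContMDiff (𝓡 (m + 1)) 𝓘(ℝ, ℝ) ∞ φ ∧ (∀ y ∈ K, NN F (fun x => φ x • n) y) ∧
      Pos F (fun x => φ x • n) q} := ⟨_, rfl⟩
  have hGK : G ⊆ K := by
    intro q hq
    rw [hG] at hq
    exact hq.1
  have hq₀G : q₀ ∈ G := by
    rw [hG]
    obtain ⟨s, hs⟩ : ∃ s : E (m + 1) →L[ℝ] ℝ, s n = 1 := by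
      refine ⟨(EuclideanSpace.proj (0 : Fin (m + 1)) : E (m + 1) →L[ℝ] ℝ).comp
        (L₀ : E (m + 1) →L[ℝ] E (m + 1)), ?_⟩
      rw [hn]
      simp [e0]
    have h := hlast s n hs
    refine ⟨hq₀, fun y => s (F y), ?_, fun y _ => (h y).1, (h q₀).2 hreg⟩
    exact s.contMDiff.comp hF.smooth
  -- open in `K`
  have hGo : ∀ q ∈ G, ∃ U ∈ 𝓝 q, U ∩ K ⊆ G := by
    intro q hq
    rw [hG] at hq
    obtain ⟨-, φ, hφ, hφ1, hφ2⟩ := hq
    refine ⟨{x | Pos F (fun x => φ x • n) x}, (hopen _ (sm_fsmul hφ n)).mem_nhds hφ2, ?_⟩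
    rintro q' ⟨hq1, hq2⟩
    rw [hG]
    exact ⟨hq2, φ, hφ, hφ1, hq1⟩
  -- closed
  have hGcl : IsClosed G := by
    refine isClosed_of_closure_subset ?_
    intro q hq
    have hqK : q ∈ K := closure_minimal hGK hKcl hq
    obtain ⟨A, L, b, hA0, hB, -, hleaf⟩ := hK.leaf q hqK univ univ_mem
    obtain ⟨c, hc, hpar⟩ := hB.par
    have h0box : (0 : E (m + 1)) ∈ box m 1 1 := ⟨by simp, by simp⟩
    have h0box' : (0 : E (m + 1)) ∈ box m 0 0 := ⟨by simp, by simp⟩
    have c1 : Continuous (fun w : E (m + 1) => ‖tl w‖) :=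
      (tl : E (m + 1) →L[ℝ] E m).continuous.norm
    have c2 : Continuous (fun w : E (m + 1) => |w 0|) := continuous_abs.comp continuous_head
    have ho : IsOpen {w : E (m + 1) | ‖tl w‖ < 1 ∧ |w 0| < 1} :=
      (isOpen_lt c1 continuous_const).inter (isOpen_lt c2 continuous_const)
    have hob : {w : E (m + 1) | ‖tl w‖ < 1 ∧ |w 0| < 1} ∈ 𝓝 (0 : E (m + 1)) :=
      ho.mem_nhds ⟨by simp, by simp⟩
    have himg := (hB.ld 0 h0box).image_mem_nhds hob
    rw [hA0] at himg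
    obtain ⟨q', hq'1, hq'2⟩ := mem_closure_iff_nhds.1 hq _ himg
    obtain ⟨z, ⟨hz1, hz2⟩, rfl⟩ := hq'1
    have hzbox : z ∈ box m 1 1 := ⟨hz1.le, hz2.le⟩
    have htl : tl z = 0 := by
      have e1 := hB.tail z hzbox
      have e2 := hB.tail 0 h0box
      rw [hpar, hcc _ (hGK hq'2)] at e1
      rw [hpar, hA0, hcc _ hqK, map_zero, zero_add] at e2
      rw [e2] at e1
      have : tl z + b - b = b - b := by rw [← e1]
      simpa using this
    have hz := eq_smul_e0 htl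
    by_cases hz0 : z 0 = 0
    · rw [hz0, zero_smul] at hz
      rw [hz, hA0] at hq'2
      exact hq'2
    · obtain ⟨a, -, ha⟩ := hdir A L b hB
      have hq'3 := hq'2
      rw [hG] at hq'3
      obtain ⟨-, φ, hφ, hφ1, hφ2⟩ := hq'3
      have hAz : A (z 0 • e0) = A z := by rw [← hz]
      obtain ⟨C, σ, hC, hσ, -, hNN, hP⟩ := h1 m X F P A L b K {x | Pos F (fun x => φ x • n) x}
        (fun x => φ x • n) (z 0) hF hB hKcl (by rw [hA0]; exact hqK) (sm_fsmul hφ n) hφ1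
        (hopen _ (sm_fsmul hφ n)) (fun x _ hx => hx) hz0 hz2 (by rw [hAz]; exact hφ2)
      have e : (fun y => C • (φ y • n) + σ y • L.symm e0) =
          fun y => (C * φ y + σ y * a) • n := by
        funext y
        rw [ha]
        module
      rw [e] at hP
      rw [hG]
      refine ⟨hqK, fun y => C * φ y + σ y * a, ?_, ?_, ?_⟩
      · exact (contMDiff_const.mul hφ).add (hσ.mul contMDiff_const)
      · intro y hy
        have := hNN y hy
        rw [e] at this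
        exact this
      · rw [hA0] at hP
        exact hP
  have hGc : IsCompact G := hK.cpt.of_isClosed_subset hGcl hGK
  -- a finite sum
  obtain ⟨Ψ, hΨ, hΨ1⟩ : ∃ Ψ : X → ℝ, ContMDiff (𝓡 (m + 1)) 𝓘(ℝ, ℝ) ∞ Ψ ∧
      ∀ y ∈ G, Pos F (fun x => Ψ x • n) y := by
    have hex : ∀ q : X, ∃ φ : X → ℝ, q ∈ G → (ContMDiff (𝓡 (m + 1)) 𝓘(ℝ, ℝ) ∞ φ ∧
        (∀ y ∈ K, NN F (fun x => φ x • n) y) ∧ Pos F (fun x => φ x • n) q) := by
      intro q
      by_cases hq : q ∈ G
      · have hq' := hq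
        rw [hG] at hq'
        obtain ⟨-, φ, hφ⟩ := hq'
        exact ⟨φ, fun _ => hφ⟩
      · exact ⟨fun _ => 0, fun h => absurd h hq⟩
    choose W hW using hex
    obtain ⟨t, ht⟩ := hGc.elim_nhds_subcover' (fun x _ => {y | Pos F (fun x' => W x x' • n) y}) (by
      intro x hx
      exact (hopen _ (sm_fsmul (hW x hx).1 n)).mem_nhds (hW x hx).2.2)
    have key : ∀ t : Finset (↥G), ∃ Ψ : X → ℝ, ContMDiff (𝓡 (m + 1)) 𝓘(ℝ, ℝ) ∞ Ψ ∧
        (∀ y ∈ K, NN F (fun x => Ψ x • n) y) ∧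
        ∀ i ∈ t, ∀ y ∈ K, Pos F (fun x' => W i x' • n) y → Pos F (fun x => Ψ x • n) y := by
      classical
      intro t
      induction t using Finset.induction_on with
      | empty =>
        refine ⟨fun _ => 0, contMDiff_const, fun y _ => ?_, by simp⟩
        have e : (fun _ : X => (0 : ℝ) • n) = fun _ => (0 : E (m + 1)) := by
          funext x; exact zero_smul ℝ n
        rw [e]
        exact hzero y
      | insert a t _ ih =>
        obtain ⟨Ψ, hΨ1, hΨ2, hΨ3⟩ := ih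
        obtain ⟨hW1, hW2, -⟩ := hW a a.2
        have e : (fun x => (Ψ x + W a x) • n) = fun x => Ψ x • n + W a x • n := by
          funext x; exact add_smul _ _ _
        refine ⟨fun x => Ψ x + W a x, hΨ1.add hW1, ?_, ?_⟩
        · intro y hy
          rw [e]
          exact hadd _ _ y (sm_fsmul hΨ1 n) (sm_fsmul hW1 n) (hΨ2 y hy) (hW2 y hy)
        · intro i hi y hy hp
          rcases Finset.mem_insert.1 hi with rfl | hi
          · have h := hposadd _ _ y (sm_fsmul hW1 n) (sm_fsmul hΨ1 n) hp (hΨ2 y hy)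
            have e' : (fun x => (Ψ x + W i x) • n) = fun x => W i x • n + Ψ x • n := by
              funext x; rw [add_smul]; exact add_comm _ _
            rw [e']
            exact h
          · rw [e]
            exact hposadd _ _ y (sm_fsmul hΨ1 n) (sm_fsmul hW1 n) (hΨ3 i hi y hy hp) (hW2 y hy)
    obtain ⟨Ψ, hΨ1, -, hΨ3⟩ := key t
    refine ⟨Ψ, hΨ1, ?_⟩
    intro y hy
    have h := ht hy
    simp only [mem_iUnion] at h
    obtain ⟨i, hi, h4⟩ := h
    exact hΨ3 i hi y (hGK hy) h4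
  -- the maximum
  obtain ⟨q₁, hq₁, hmax⟩ := hGc.exists_isMaxOn ⟨q₀, hq₀G⟩ hΨ.continuous.continuousOn
  obtain ⟨U, hU, hUG⟩ := hGo q₁ hq₁
  obtain ⟨A, L, b, hA0, hB, hAU, hleaf⟩ := hK.leaf q₁ (hGK hq₁) U hU
  obtain ⟨hCo, -, -, -, hsig⟩ := h2 m X F P A L b hF.smooth hB
  obtain ⟨a, ha0, ha⟩ := hdir A L b hB
  have h0box : (0 : E (m + 1)) ∈ box m 1 1 := ⟨by simp, by simp⟩
  have hp := hΨ1 q₁ hq₁
  rw [← hA0] at hp
  have ht := ((hco A L 0 _ (sm_fsmul hΨ n) (hCo 0 h0box)).2).1 hp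
  have e1 : (fun x => Ψ x • n) = fun x => (Ψ x * a⁻¹) • L.symm e0 := by
    funext x
    rw [ha, smul_smul, mul_assoc, inv_mul_cancel₀ ha0, mul_one]
  rw [e1, hsig (fun x => Ψ x * a⁻¹) (hΨ.mul contMDiff_const) 0 h0box] at ht
  have hd : HasFDerivAt (fun w => Ψ (A w)) (fderiv ℝ (fun w => Ψ (A w)) 0) 0 :=
    ((cda' hΨ (hB.ld 0 h0box)).differentiableAt (by simp)).hasFDerivAt
  have e2 : fderiv ℝ (fun w => Ψ (A w) * a⁻¹) 0 = a⁻¹ • fderiv ℝ (fun w => Ψ (A w)) 0 := by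
    have := (hd.mul_const a⁻¹).fderiv
    rw [this]
  have e3 : HasDerivAt (fun u : ℝ => u • (e0 : E (m + 1))) e0 0 := by
    have := (hasDerivAt_id (0 : ℝ)).smul_const (e0 : E (m + 1))
    simpa using this
  have e4 : HasDerivAt (fun u : ℝ => Ψ (A (u • (e0 : E (m + 1)))))
      (fderiv ℝ (fun w => Ψ (A w)) 0 e0) 0 := by
    have hd' : HasFDerivAt (fun w => Ψ (A w)) (fderiv ℝ (fun w => Ψ (A w)) 0)
        ((0 : ℝ) • (e0 : E (m + 1))) := by
      rw [zero_smul]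
      exact hd
    exact hd'.comp_hasDerivAt (0 : ℝ) e3
  have e5 : IsLocalMax (fun u : ℝ => Ψ (A (u • (e0 : E (m + 1))))) 0 := by
    have hnb : Icc (-1 : ℝ) 1 ∈ 𝓝 (0 : ℝ) := Icc_mem_nhds (by norm_num) (by norm_num)
    filter_upwards [hnb] with u hu
    have hu' : |u| ≤ 1 := abs_le.2 hu
    have hmem : A (u • (e0 : E (m + 1))) ∈ G :=
      hUG ⟨hAU _ (te0_mem hu'), hleaf u hu'⟩
    have := hmax hmem
    simp only [zero_smul, hA0]
    exact this
  have e6 := e5.hasDerivAt_eq_zero e4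
  rw [e2] at ht
  simp only [smul_apply, e6, smul_zero, lt_self_iff_false] at ht

end Pool.Agent.L7h38.NF
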