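/-
Project NF: the part SUMY.
-/
import Pool.Agent.L7h20.NF.Stm3

set_option autoImplicit false

open Set Filter Topology Metric Function
open scoped Manifold ContDiff

noncomputable section

namespace Pool.Agent.L7h38.NF

open Pool.Agent.Y522 Pool.Agent.L7h20.NF

theorem s_SUMY (hC : S_CONEY) : S_SUMY := by
  intro m a X Y _ _ _ _ _ _ _ κ ρ U f hR hF hc hG
  obtain ⟨hadd, hpos, -, hopen, hpn, hzero, -⟩ := hC m a X Y κ ρ U f hR hF
  have hG' : ∀ x : X, ∃ V : X → E a, ¬ LD (m + 1) f x → (SmA (m := m) V ∧ HasCompactSupport V ∧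
      (∀ y, ¬ LD (m + 1) f y → NNY (m := m) κ ρ f V y) ∧ PosY (m := m) κ ρ f V x) := by
    intro x
    by_cases hx : LD (m + 1) f x
    · exact ⟨fun _ => 0, fun h => absurd hx h⟩
    · obtain ⟨V, h1, h2, h3, h4⟩ := hG x hx
      exact ⟨V, fun _ => ⟨h1, h2, h3, h4⟩⟩
  choose W hW using hG'
  obtain ⟨t, ht⟩ := hc.elim_nhds_subcover'
    (fun x _ => {y | ¬ LD (m + 1) f x ∧ (¬ LD (m + 1) f y → PosY (m := m) κ ρ f (W x) y)}) (by
    intro x hx
    have h := hopen (W x) x (hW x hx).1 hx (hW x hx).2.2.2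
    filter_upwards [h] with y hy
    exact ⟨hx, hy⟩)
  have key : ∀ t : Finset (↥{x : X | ¬ LD (m + 1) f x}), ∃ V : X → E a, SmA (m := m) V ∧
      HasCompactSupport V ∧ (∀ y, ¬ LD (m + 1) f y → NNY (m := m) κ ρ f V y) ∧
      ∀ i ∈ t, ∀ y, ¬ LD (m + 1) f y → PosY (m := m) κ ρ f (W i) y →
        PosY (m := m) κ ρ f V y := by
    classical
    intro t
    induction t using Finset.induction_on with
    | empty =>
      exact ⟨fun _ => 0, contMDiff_const, HasCompactSupport.zero, fun y _ => hzero y, by simp⟩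
    | insert b t _ ih =>
      obtain ⟨V, hV1, hV2, hV3, hV4⟩ := ih
      obtain ⟨hW1, hW2, hW3, -⟩ := hW b b.2
      refine ⟨fun y => V y + W b y, ContMDiff.add hV1 hW1, hV2.add hW2, ?_, ?_⟩
      · intro y hy
        exact hadd V (W b) y hV1 hW1 hy (hV3 y hy) (hW3 y hy)
      · intro i hi y hy hp
        rcases Finset.mem_insert.1 hi with rfl | hi
        · have h := hpos (W i) V y hW1 hV1 hy hp (hV3 y hy)
          have e : (fun y => V y + W i y) = fun y => W i y + V y := by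
            funext z; exact add_comm _ _
          rw [e]
          exact h
        · exact hpos V (W b) y hV1 hW1 hy (hV4 i hi y hy hp) (hW3 y hy)
  obtain ⟨V, hV1, hV2, -, hV4⟩ := key t
  refine ⟨V, hV1, hV2, ?_⟩
  intro x hx
  have h := ht hx
  simp only [mem_iUnion] at h
  obtain ⟨i, hi, h2⟩ := h
  exact hV4 i hi x hx (h2.2 hx)

end Pool.Agent.L7h38.NF
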